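import Mathlib

/-!
Two-rooted graphs whose roots have large neighbourhoods are not inherent.
-/

namespace Pool.Agent.Results.MP_4a1452_co.RootComponentsTrees

variable {W V P : Type}

/-- `(s', t')` gives an extension of the copy `φ` of `(H, s, t)` in `G`. -/
def IsExtension {H : SimpleGraph W} {G : SimpleGraph V} (φ : H ↪g G) (s t : W)
    (s' t' : V) : Prop :=
  s' ≠ t' ∧ s' ∉ Set.range φ ∧ t' ∉ Set.range φ ∧ ¬ G.Adj s' t' ∧
    (∀ a, G.Adj s' (φ a) ↔ a = s) ∧ (∀ a, G.Adj t' (φ a) ↔ a = t)

/-- The extension is closable: there is an induced path from `s'` to `t'` whose other vertices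
lie outside the closed neighbourhood of the copy. -/
def IsClosable {H : SimpleGraph W} {G : SimpleGraph V} (φ : H ↪g G) (s' t' : V) : Prop :=
  ∃ p : G.Walk s' t', p.IsPath ∧
    (∀ i j, i ≤ p.length → j ≤ p.length → G.Adj (p.getVert i) (p.getVert j) →
      i + 1 = j ∨ j + 1 = i) ∧
    ∀ v ∈ p.support, v ≠ s' → v ≠ t' → ∀ a, v ≠ φ a ∧ ¬ G.Adj v (φ a)

/-- The copy `φ` of `(H, s, t)` is avoidable in `G`. -/
def IsAvoidable {H : SimpleGraph W} {G : SimpleGraph V} (φ : H ↪g G) (s t : W) : Prop :=
  ∀ s' t', IsExtension φ s t s' t' → IsClosable φ s' t'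

/-- `(H, s, t)` is inherent: every finite graph containing a copy of `H` contains an avoidable
copy of `(H, s, t)`. -/
def Inherent (H : SimpleGraph W) (s t : W) : Prop :=
  ∀ (V : Type) [Fintype V] (G : SimpleGraph V), Nonempty (H ↪g G) →
    ∃ φ : H ↪g G, IsAvoidable φ s t

/-- `x` has at least two neighbours. -/
def TwoNbrs (H : SimpleGraph W) (x : W) : Prop :=
  ∃ a b, a ≠ b ∧ H.Adj x a ∧ H.Adj x b

/-- `x` has two non-adjacent neighbours. -/
def TwoIndep (H : SimpleGraph W) (x : W) : Prop :=
  ∃ a b, a ≠ b ∧ H.Adj x a ∧ H.Adj x b ∧ ¬ H.Adj a b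

/-- `x` has three pairwise non-adjacent neighbours. -/
def ThreeIndep (H : SimpleGraph W) (x : W) : Prop :=
  ∃ a b c, a ≠ b ∧ a ≠ c ∧ b ≠ c ∧ H.Adj x a ∧ H.Adj x b ∧ H.Adj x c ∧
    ¬ H.Adj a b ∧ ¬ H.Adj a c ∧ ¬ H.Adj b c

/-- `H` with `N` copies of the rooted graph `(R, none)` attached at every vertex. -/
def attach (H : SimpleGraph W) (N : ℕ) (R : SimpleGraph (Option P)) :
    SimpleGraph (W ⊕ (W × Fin N × P)) where
  Adj u v := match u, v with
    | .inl x, .inl y => H.Adj x y
    | .inl x, .inr (y, _, q) => x = y ∧ R.Adj none (some q)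
    | .inr (x, _, p), .inl y => x = y ∧ R.Adj none (some p)
    | .inr (x, i, p), .inr (y, j, q) => x = y ∧ i = j ∧ R.Adj (some p) (some q)
  symm := by
    constructor
    rintro (x | ⟨x, i, p⟩) (y | ⟨y, j, q⟩) h
    · exact SimpleGraph.Adj.symm h
    · exact ⟨h.1.symm, h.2⟩
    · exact ⟨h.1.symm, h.2⟩
    · exact ⟨h.1.symm, h.2.1.symm, SimpleGraph.Adj.symm h.2.2⟩
  loopless := by
    constructor
    rintro (x | ⟨x, i, p⟩) h
    · exact H.loopless.irrefl x h
    · exact R.loopless.irrefl _ h.2.2

/-- The core is an induced copy. -/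
def core (H : SimpleGraph W) (N : ℕ) (R : SimpleGraph (Option P)) : H ↪g attach H N R where
  toFun := Sum.inl
  inj' := Sum.inl_injective
  map_rel_iff' := Iff.rfl

theorem sep {H : SimpleGraph W} {N : ℕ} {R : SimpleGraph (Option P)} {x : W} {i : Fin N}
    {u v : W ⊕ (W × Fin N × P)} (p : (attach H N R).Walk u v)
    (hu : ∃ q, u = .inr (x, i, q)) (hv : ∀ q, v ≠ .inr (x, i, q)) :
    (Sum.inl x : W ⊕ (W × Fin N × P)) ∈ p.support := by
  induction p with
  | nil => obtain ⟨q, hq⟩ := hu; exact absurd hq (hv q)
  | @cons a b c h p ih =>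
    obtain ⟨q, rfl⟩ := hu
    rw [SimpleGraph.Walk.support_cons]
    right
    rcases b with y | ⟨y, j, q'⟩
    · have : x = y := h.1
      subst this
      exact p.start_mem_support
    · obtain ⟨h1, h2, -⟩ := h
      subst h1; subst h2
      exact ih ⟨q', rfl⟩ hv

/-- An unused block index. -/
theorem unused [Fintype W] {N : ℕ} (hN : Fintype.card W + 1 < N)
    (f : W → W ⊕ (W × Fin N × P)) (x : W) (i0 : Fin N) :
    ∃ i : Fin N, i ≠ i0 ∧ ∀ a q, f a ≠ .inr (x, i, q) := by
  classical
  let g : W → Fin N := fun a => match f a with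
    | .inl _ => i0
    | .inr (_, j, _) => j
  let S : Finset (Fin N) := insert i0 (Finset.univ.image g)
  have hS : S.card < (Finset.univ : Finset (Fin N)).card := by
    calc S.card ≤ (Finset.univ.image g).card + 1 := Finset.card_insert_le _ _
      _ ≤ Fintype.card W + 1 := by
        have := Finset.card_image_le (s := (Finset.univ : Finset W)) (f := g)
        simpa using this
      _ < N := hN
      _ = _ := by simp
  obtain ⟨i, -, hi⟩ := Finset.exists_mem_notMem_of_card_lt_card hS
  refine ⟨i, fun h => hi (by simp [S, h]), fun a q h => hi ?_⟩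
  have : g a = i := by simp only [g, h]
  simp only [S, Finset.mem_insert, Finset.mem_image, Finset.mem_univ, true_and]
  exact Or.inr ⟨a, this⟩

/-- The general construction. -/
theorem main [Fintype W] [Fintype P] (H : SimpleGraph W) (s t : W) (R : SimpleGraph (Option P))
    (p0 : P) (hp0 : R.Adj none (some p0)) (N : ℕ) (hN : Fintype.card W + 1 < N)
    (h1 : ∀ φ : H ↪g attach H N R, ∃ x, φ s = .inl x)
    (h2 : ∀ φ : H ↪g attach H N R, ∀ y j p, φ t = .inr (y, j, p) →
      ∃ q, R.Adj (some p) (some q) ∧ (∀ a, φ a ≠ .inr (y, j, q)) ∧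
        ∀ a, (attach H N R).Adj (.inr (y, j, q)) (φ a) → a = t) :
    ¬ Inherent H s t := by
  intro hinh
  obtain ⟨φ, hφ⟩ := hinh _ (attach H N R) ⟨core H N R⟩
  obtain ⟨x, hx⟩ := h1 φ
  have i0 : Fin N := ⟨0, by omega⟩
  obtain ⟨i, -, hi⟩ := unused hN φ x i0
  have key : ∃ y j q, (y, j) ≠ (x, i) ∧ (∀ a, φ a ≠ .inr (y, j, q)) ∧
      ∀ a, (attach H N R).Adj (.inr (y, j, q)) (φ a) ↔ a = t := by
    rcases hy : φ t with y | ⟨y, j, p⟩
    · obtain ⟨j, hj, hj'⟩ := unused hN φ y i
      refine ⟨y, j, p0, fun h => hj (congrArg Prod.snd h), fun a => hj' a p0, fun a => ⟨?_, ?_⟩⟩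
      · intro h
        rcases ha : φ a with z | ⟨z, k, r⟩
        · rw [ha] at h
          have : y = z := h.1
          subst this
          exact φ.injective (ha.trans hy.symm)
        · rw [ha] at h
          obtain ⟨e1, e2, -⟩ := h
          subst e1; subst e2
          exact absurd ha (hj' a r)
      · rintro rfl
        rw [hy]
        exact ⟨rfl, hp0⟩
    · obtain ⟨q, hq1, hq2, hq3⟩ := h2 φ y j p hy
      refine ⟨y, j, q, ?_, hq2, fun a => ⟨hq3 a, ?_⟩⟩
      · intro h
        simp only [Prod.mk.injEq] at h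
        obtain ⟨e1, e2⟩ := h
        subst e1; subst e2
        exact hi t p hy
      · rintro rfl
        rw [hy]
        exact ⟨rfl, rfl, SimpleGraph.Adj.symm hq1⟩
  obtain ⟨y, j, q, hne, hq1, hq2⟩ := key
  have hext : IsExtension φ s t (.inr (x, i, p0)) (.inr (y, j, q)) := by
    refine ⟨?_, ?_, ?_, ?_, fun a => ⟨?_, ?_⟩, hq2⟩
    · intro h
      simp only [Sum.inr.injEq, Prod.mk.injEq] at h
      exact hne (by rw [h.1, h.2.1])
    · rintro ⟨a, ha⟩
      exact hi a p0 ha
    · rintro ⟨a, ha⟩
      exact hq1 a ha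
    · intro h
      exact hne (by rw [h.1, h.2.1])
    · intro h
      rcases ha : φ a with z | ⟨z, k, r⟩
      · rw [ha] at h
        have : x = z := h.1
        subst this
        exact φ.injective (ha.trans hx.symm)
      · rw [ha] at h
        obtain ⟨e1, e2, -⟩ := h
        subst e1; subst e2
        exact absurd ha (hi a r)
    · rintro rfl
      rw [hx]
      exact ⟨rfl, hp0⟩
  obtain ⟨p, -, -, hp⟩ := hφ _ _ hext
  have hmem := sep p ⟨p0, rfl⟩ (x := x) (i := i) (by
    intro r h
    simp only [Sum.inr.injEq, Prod.mk.injEq] at h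
    exact hne (by rw [h.1, h.2.1]))
  exact (hp _ hmem (by simp) (by simp) s).1 hx.symm

theorem caseA [Fintype W] (H : SimpleGraph W) (s t : W) (hs : TwoNbrs H s) (ht : TwoNbrs H t) :
    ¬ Inherent H s t := by
  have key : ∀ z, TwoNbrs H z → ∀ φ : H ↪g attach H (Fintype.card W + 2)
      (⊤ : SimpleGraph (Option Unit)), ∃ x, φ z = .inl x := by
    rintro z ⟨a, b, hab, ha, hb⟩ φ
    rcases hz : φ z with x | ⟨x, i, p⟩
    · exact ⟨x, rfl⟩
    · exfalso
      have h : ∀ c, H.Adj z c → φ c = .inl x := by
        intro c hc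
        have h' := φ.map_adj_iff.mpr hc
        rw [hz] at h'
        rcases hc' : φ c with y | ⟨y, j, q⟩
        · rw [hc'] at h'
          rw [h'.1]
        · rw [hc'] at h'
          exact absurd rfl h'.2.2.ne
      exact hab (φ.injective ((h a ha).trans (h b hb).symm))
  refine main H s t (⊤ : SimpleGraph (Option Unit)) () (by simp) (Fintype.card W + 2) (by omega)
    (key s hs) ?_
  intro φ y j p hp
  obtain ⟨x, hx⟩ := key t ht φ
  rw [hx] at hp
  cases hp

theorem caseC [Fintype W] (H : SimpleGraph W) (s t : W) (hs : TwoIndep H s)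
    (ht : ∀ a, ¬ H.Adj t a) : ¬ Inherent H s t := by
  refine main H s t (⊤ : SimpleGraph (Option Bool)) true (by simp) (Fintype.card W + 2) (by omega)
    ?_ ?_
  · intro φ
    obtain ⟨a, b, hab, ha, hb, hn⟩ := hs
    rcases hz : φ s with x | ⟨x, i, p⟩
    · exact ⟨x, rfl⟩
    · exfalso
      have h : ∀ c, H.Adj s c → φ c = .inl x ∨ ∃ q, φ c = .inr (x, i, q) := by
        intro c hc
        have h' := φ.map_adj_iff.mpr hc
        rw [hz] at h'
        rcases hc' : φ c with y | ⟨y, j, q⟩
        · rw [hc'] at h'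
          left; rw [h'.1]
        · rw [hc'] at h'
          right; exact ⟨q, by rw [h'.1, h'.2.1]⟩
      apply hn
      rw [← φ.map_adj_iff]
      have hab' : φ a ≠ φ b := fun h => hab (φ.injective h)
      rcases h a ha with h1 | ⟨q1, h1⟩ <;> rcases h b hb with h2 | ⟨q2, h2⟩
      · exact absurd (h1.trans h2.symm) hab'
      · rw [h1, h2]; exact ⟨rfl, by simp⟩
      · rw [h1, h2]; exact ⟨rfl, by simp⟩
      · rw [h1, h2] at hab' ⊢
        refine ⟨rfl, rfl, ?_⟩
        simp only [SimpleGraph.top_adj, ne_eq, Option.some.injEq]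
        intro h; exact hab' (by rw [h])
  · intro φ y j p hp
    have hfree : ∀ a, (attach H (Fintype.card W + 2) (⊤ : SimpleGraph (Option Bool))).Adj
        (φ t) (φ a) → False := fun a h => ht a (φ.map_adj_iff.mp h)
    refine ⟨!p, by simp, ?_, ?_⟩
    · intro a ha
      apply hfree a
      rw [hp, ha]
      exact ⟨rfl, rfl, by simp⟩
    · intro a h
      by_contra hat
      apply hfree a
      rw [hp]
      rcases ha : φ a with z | ⟨z, k, r⟩
      · rw [ha] at h
        exact ⟨h.1, by simp⟩
      · rw [ha] at h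
        refine ⟨h.1, h.2.1, ?_⟩
        simp only [SimpleGraph.top_adj, ne_eq, Option.some.injEq]
        intro hpr
        apply hat
        apply φ.injective
        rw [ha, hp, ← h.1, ← h.2.1, hpr]

/-- The `m × m` rook graph with a further vertex `none` joined to the first row. -/
def rook (m : ℕ) [NeZero m] : SimpleGraph (Option (Fin m × Fin m)) where
  Adj u v := match u, v with
    | none, none => False
    | none, some q => q.1 = 0
    | some p, none => p.1 = 0
    | some p, some q => p ≠ q ∧ (p.1 = q.1 ∨ p.2 = q.2)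
  symm := by
    constructor
    rintro (_ | p) (_ | q) h
    · exact h
    · exact h
    · exact h
    · exact ⟨h.1.symm, h.2.imp Eq.symm Eq.symm⟩
  loopless := by
    constructor
    rintro (_ | p) h
    · exact h
    · exact h.1 rfl

theorem exists_line [Fintype W] {m : ℕ} (hm : Fintype.card W + 2 < m) (g : W → Fin m)
    (c0 c1 : Fin m) : ∃ c : Fin m, c ≠ c0 ∧ c ≠ c1 ∧ ∀ a, g a ≠ c := by
  classical
  let S : Finset (Fin m) := insert c0 (insert c1 (Finset.univ.image g))
  have hS : S.card < (Finset.univ : Finset (Fin m)).card := by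
    calc S.card ≤ (insert c1 (Finset.univ.image g)).card + 1 := Finset.card_insert_le _ _
      _ ≤ (Finset.univ.image g).card + 1 + 1 := by
        have := Finset.card_insert_le c1 (Finset.univ.image g)
        omega
      _ ≤ Fintype.card W + 2 := by
        have := Finset.card_image_le (s := (Finset.univ : Finset W)) (f := g)
        rw [Finset.card_univ] at this
        omega
      _ < m := hm
      _ = _ := by simp
  obtain ⟨c, -, hc⟩ := Finset.exists_mem_notMem_of_card_lt_card hS
  simp only [S, Finset.mem_insert, Finset.mem_image, Finset.mem_univ, true_and, not_or,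
    not_exists] at hc
  exact ⟨c, hc.1, hc.2.1, hc.2.2⟩

theorem caseB [Fintype W] (H : SimpleGraph W) (s t : W) (hs : ThreeIndep H s)
    (ht : ¬ TwoNbrs H t) : ¬ Inherent H s t := by
  classical
  set n := Fintype.card W with hn
  have hm : n + 2 < n + 3 := by omega
  have : NeZero (n + 3) := ⟨by omega⟩
  refine main H s t (rook (n + 3)) ((0, 0) : Fin (n + 3) × Fin (n + 3)) rfl (n + 2) (by omega)
    ?_ ?_
  · intro φ
    rcases hz : φ s with x | ⟨x, i, c, d⟩
    · exact ⟨x, rfl⟩
    · exfalso
      have hrc : ∀ a, H.Adj s a →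
          ((φ a = .inl x ∧ c = 0) ∨ ∃ d', φ a = .inr (x, i, c, d')) ∨
            ∃ c', φ a = .inr (x, i, c', d) := by
        intro a ha
        have h' := φ.map_adj_iff.mpr ha
        rw [hz] at h'
        rcases hc' : φ a with y | ⟨y, j, c', d'⟩
        · rw [hc'] at h'
          left; left; exact ⟨by rw [h'.1], h'.2⟩
        · rw [hc'] at h'
          obtain ⟨e1, e2, -, e3⟩ := h'
          simp only at e3
          rcases e3 with e3 | e3
          · left; right; exact ⟨d', by rw [e1, e2, e3]⟩
          · right; exact ⟨c', by rw [e1, e2, e3]⟩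
      have hrow : ∀ a b, a ≠ b → ((φ a = .inl x ∧ c = 0) ∨ ∃ d', φ a = .inr (x, i, c, d')) →
          ((φ b = .inl x ∧ c = 0) ∨ ∃ d', φ b = .inr (x, i, c, d')) → H.Adj a b := by
        intro a b hab h1 h2
        have hab' : φ a ≠ φ b := fun h => hab (φ.injective h)
        rw [← φ.map_adj_iff]
        rcases h1 with ⟨h1, hc⟩ | ⟨d1, h1⟩ <;> rcases h2 with ⟨h2, hc2⟩ | ⟨d2, h2⟩
        · exact absurd (h1.trans h2.symm) hab'
        · rw [h1, h2]; exact ⟨rfl, hc⟩
        · rw [h1, h2]; exact ⟨rfl, hc2⟩
        · rw [h1, h2] at hab' ⊢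
          exact ⟨rfl, rfl, fun h => hab' (by rw [h]), Or.inl rfl⟩
      have hcol : ∀ a b, a ≠ b → (∃ c', φ a = .inr (x, i, c', d)) →
          (∃ c', φ b = .inr (x, i, c', d)) → H.Adj a b := by
        rintro a b hab ⟨c1, h1⟩ ⟨c2, h2⟩
        have hab' : φ a ≠ φ b := fun h => hab (φ.injective h)
        rw [← φ.map_adj_iff]
        rw [h1, h2] at hab' ⊢
        exact ⟨rfl, rfl, fun h => hab' (by rw [h]), Or.inr rfl⟩
      obtain ⟨a, b, e, hab, hae, hbe, ha, hb, he, nab, nae, nbe⟩ := hs
      rcases hrc a ha with h1 | h1 <;> rcases hrc b hb with h2 | h2 <;>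
        rcases hrc e he with h3 | h3
      · exact nab (hrow _ _ hab h1 h2)
      · exact nab (hrow _ _ hab h1 h2)
      · exact nae (hrow _ _ hae h1 h3)
      · exact nbe (hcol _ _ hbe h2 h3)
      · exact nbe (hrow _ _ hbe h2 h3)
      · exact nae (hcol _ _ hae h1 h3)
      · exact nab (hcol _ _ hab h1 h2)
      · exact nab (hcol _ _ hab h1 h2)
  · rintro φ y j ⟨c, d⟩ hp
    -- coordinates of the vertices of the copy
    let g1 : W → Fin (n + 3) := fun a => match φ a with
      | .inl _ => 0
      | .inr (_, _, q) => q.1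
    let g2 : W → Fin (n + 3) := fun a => match φ a with
      | .inl _ => 0
      | .inr (_, _, q) => q.2
    by_cases hcol : ∀ a, a ≠ t → ∀ c', φ a ≠ .inr (y, j, c', d)
    · obtain ⟨c', hc0, hc1, hc2⟩ := exists_line hm g1 0 c
      refine ⟨(c', d), ⟨fun h => hc1 (congrArg Prod.fst h).symm, Or.inr rfl⟩, ?_, ?_⟩
      · intro a ha
        exact hc2 a (by simp only [g1, ha])
      · intro a h
        by_contra hat
        rcases ha : φ a with z | ⟨z, k, c1, d1⟩
        · rw [ha] at h
          exact hc0 h.2
        · rw [ha] at h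
          obtain ⟨e1, e2, -, e3⟩ := h
          simp only at e3
          rcases e3 with e3 | e3
          · exact hc2 a (by simp only [g1, ha, e3])
          · exact hcol a hat c1 (by rw [ha, e1, e2, e3])
    · push Not at hcol
      obtain ⟨b, hbt, cb, hb⟩ := hcol
      have hbadj : H.Adj t b := by
        rw [← φ.map_adj_iff, hp, hb]
        refine ⟨rfl, rfl, fun h => hbt (φ.injective ?_), Or.inr rfl⟩
        rw [hb, hp, h]
      have huniq : ∀ a, H.Adj t a → a = b := by
        intro a ha
        by_contra hab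
        exact ht ⟨a, b, hab, ha, hbadj⟩
      obtain ⟨d', -, hd1, hd2⟩ := exists_line hm g2 0 d
      have hcb : cb ≠ c := by
        intro h
        apply hbt
        apply φ.injective
        rw [hb, hp, h]
      refine ⟨(c, d'), ⟨fun h => hd1 (congrArg Prod.snd h).symm, Or.inl rfl⟩, ?_, ?_⟩
      · intro a ha
        exact hd2 a (by simp only [g2, ha])
      · intro a h
        by_contra hat
        rcases ha : φ a with z | ⟨z, k, c1, d1⟩
        · rw [ha] at h
          have h3 : a = b := by
            apply huniq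
            rw [← φ.map_adj_iff, hp, ha]
            exact ⟨h.1, h.2⟩
          rw [h3, hb] at ha
          cases ha
        · rw [ha] at h
          obtain ⟨e1, e2, -, e3⟩ := h
          simp only at e3
          rcases e3 with e3 | e3
          · have h3 : a = b := by
              apply huniq
              rw [← φ.map_adj_iff, hp, ha]
              refine ⟨e1, e2, fun h => hat (φ.injective ?_), Or.inl e3⟩
              rw [ha, hp, ← e1, ← e2, h]
            rw [h3, hb] at ha
            simp only [Sum.inr.injEq, Prod.mk.injEq] at ha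
            exact hcb (ha.2.2.1.trans e3.symm)
          · exact hd2 a (by simp only [g2, ha, e3])

/-- The incidence graph of the affine plane over `ZMod p` (points `inl (x, y)`, lines
`inr (m, b)`, incidence `y = m x + b`), with a further vertex `none` joined to the origin. -/
def plane (p : ℕ) :
    SimpleGraph (Option ((ZMod p × ZMod p) ⊕ (ZMod p × ZMod p))) where
  Adj u v := match u, v with
    | none, some (.inl q) => q = 0
    | some (.inl q), none => q = 0
    | some (.inl q), some (.inr l) => q.2 = l.1 * q.1 + l.2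
    | some (.inr l), some (.inl q) => q.2 = l.1 * q.1 + l.2
    | _, _ => False
  symm := by
    constructor
    rintro (_ | (q | l)) (_ | (q' | l')) h
    all_goals exact h
  loopless := by
    constructor
    rintro (_ | (q | l)) h
    all_goals exact h

theorem exists_slope [Fintype W] {p : ℕ} [NeZero p] (hp : Fintype.card W < p) (g : W → ZMod p) :
    ∃ c, ∀ a, g a ≠ c := by
  classical
  have hS : (Finset.univ.image g).card < (Finset.univ : Finset (ZMod p)).card := by
    calc (Finset.univ.image g).card ≤ Fintype.card W := by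
          have := Finset.card_image_le (s := (Finset.univ : Finset W)) (f := g)
          rwa [Finset.card_univ] at this
      _ < p := hp
      _ = _ := by simp [ZMod.card]
  obtain ⟨c, -, hc⟩ := Finset.exists_mem_notMem_of_card_lt_card hS
  simp only [Finset.mem_image, Finset.mem_univ, true_and, not_exists] at hc
  exact ⟨c, hc⟩

theorem caseD [Fintype W] (H : SimpleGraph W) (s t : W)
    (hs : ∃ a b, H.Adj s a ∧ H.Adj s b ∧ H.Adj a b) : ¬ Inherent H s t := by
  classical
  obtain ⟨p, hpn, hpp⟩ := Nat.exists_infinite_primes (Fintype.card W + 1)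
  have : Fact p.Prime := ⟨hpp⟩
  have : NeZero p := ⟨hpp.ne_zero⟩
  refine main H s t (plane p) (.inl 0) rfl (Fintype.card W + 2) (by omega) ?_ ?_
  · intro φ
    obtain ⟨a, b, ha, hb, hab⟩ := hs
    have ha' := φ.map_adj_iff.mpr ha
    have hb' := φ.map_adj_iff.mpr hb
    have hab' := φ.map_adj_iff.mpr hab
    rcases hz : φ s with x | ⟨x, i, (v | v)⟩
    · exact ⟨x, rfl⟩
    · exfalso
      rw [hz] at ha' hb'
      rcases h1 : φ a with x1 | ⟨x1, i1, (v1 | v1)⟩ <;>
        rcases h2 : φ b with x2 | ⟨x2, i2, (v2 | v2)⟩ <;> rw [h1] at ha' hab' <;>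
        rw [h2] at hb' hab'
      · exact H.loopless.irrefl x (by
          have e1 : x = x1 := ha'.1
          have e2 : x = x2 := hb'.1
          have e3 : H.Adj x1 x2 := hab'
          rw [← e1, ← e2] at e3
          exact e3)
      · exact hb'.2.2
      · exact hab'.2
      · exact ha'.2.2
      · exact ha'.2.2
      · exact ha'.2.2
      · exact hab'.2
      · exact hb'.2.2
      · exact hab'.2.2
    · exfalso
      rw [hz] at ha' hb'
      rcases h1 : φ a with x1 | ⟨x1, i1, (v1 | v1)⟩ <;>
        rcases h2 : φ b with x2 | ⟨x2, i2, (v2 | v2)⟩ <;> rw [h1] at ha' hab' <;>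
        rw [h2] at hb' hab'
      · exact ha'.2
      · exact ha'.2
      · exact ha'.2
      · exact hb'.2
      · exact hab'.2.2
      · exact hb'.2.2
      · exact hb'.2
      · exact ha'.2.2
      · exact ha'.2.2
  · rintro φ y j (⟨x0, y0⟩ | ⟨m0, b0⟩) hp
    · let g : W → ZMod p := fun a => match φ a with
        | .inl _ => 0
        | .inr (_, _, .inl q) => (q.2 - y0) / (q.1 - x0)
        | .inr (_, _, .inr l) => l.1
      obtain ⟨m, hm⟩ := exists_slope (by omega) g
      refine ⟨.inr (m, y0 - m * x0), ?_, ?_, ?_⟩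
      · change y0 = m * x0 + (y0 - m * x0)
        ring
      · intro a ha
        exact hm a (by simp only [g, ha])
      · intro a h
        rcases ha : φ a with z | ⟨z, k, (⟨x1, y1⟩ | l)⟩
        · rw [ha] at h
          exact absurd h.2 id
        · rw [ha] at h
          obtain ⟨e1, e2, e3⟩ := h
          have e3' : y1 = m * x1 + (y0 - m * x0) := e3
          by_cases hx : x1 = x0
          · apply φ.injective
            rw [ha, hp, ← e1, ← e2, hx]
            have : y1 = y0 := by rw [e3', hx]; ring
            rw [this]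
          · exfalso
            apply hm a
            simp only [g, ha]
            rw [div_eq_iff (sub_ne_zero.mpr hx), e3']
            ring
        · rw [ha] at h
          exact absurd h.2.2 id
    · let g : W → ZMod p := fun a => match φ a with
        | .inl _ => 0
        | .inr (_, _, .inl q) => q.1
        | .inr (_, _, .inr l) => (b0 - l.2) / (l.1 - m0)
      obtain ⟨x, hx⟩ := exists_slope (by omega) g
      refine ⟨.inl (x, m0 * x + b0), ?_, ?_, ?_⟩
      · change m0 * x + b0 = m0 * x + b0
        rfl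
      · intro a ha
        exact hx a (by simp only [g, ha])
      · intro a h
        rcases ha : φ a with z | ⟨z, k, (q | ⟨m1, b1⟩)⟩
        · rw [ha] at h
          exfalso
          have h2 : (x, m0 * x + b0) = (0 : ZMod p × ZMod p) := h.2
          apply hx a
          simp only [g, ha]
          exact (congrArg Prod.fst h2).symm
        · rw [ha] at h
          exact absurd h.2.2 id
        · rw [ha] at h
          obtain ⟨e1, e2, e3⟩ := h
          have e3' : m0 * x + b0 = m1 * x + b1 := e3
          by_cases hm : m1 = m0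
          · apply φ.injective
            have : b1 = b0 := by rw [hm] at e3'; exact (add_left_cancel e3').symm
            rw [ha, hp, ← e1, ← e2, hm, this]
          · exfalso
            apply hx a
            simp only [g, ha]
            rw [div_eq_iff (sub_ne_zero.mpr hm)]
            linear_combination e3'

theorem inherent_symm {H : SimpleGraph W} {s t : W} (h : Inherent H s t) : Inherent H t s := by
  intro V _ G hG
  obtain ⟨φ, hφ⟩ := h V G hG
  refine ⟨φ, fun s' t' he => ?_⟩
  obtain ⟨h1, h2, h3, h4, h5, h6⟩ := he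
  obtain ⟨p, hp1, hp2, hp3⟩ := hφ t' s' ⟨h1.symm, h3, h2, fun h => h4 h.symm, h6, h5⟩
  refine ⟨p.reverse, hp1.reverse, ?_, ?_⟩
  · intro i j hi hj hadj
    rw [SimpleGraph.Walk.length_reverse] at hi hj
    rw [SimpleGraph.Walk.getVert_reverse, SimpleGraph.Walk.getVert_reverse] at hadj
    have := hp2 (p.length - i) (p.length - j) (Nat.sub_le _ _) (Nat.sub_le _ _) hadj
    omega
  · intro v hv hv1 hv2
    rw [SimpleGraph.Walk.support_reverse, List.mem_reverse] at hv
    exact hp3 v hv hv2 hv1

theorem twoNbrs_of_degree [Fintype W] (H : SimpleGraph W) [DecidableRel H.Adj] (x : W)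
    (h : 2 ≤ H.degree x) : TwoNbrs H x := by
  rw [← SimpleGraph.card_neighborFinset_eq_degree] at h
  obtain ⟨a, ha, b, hb, hab⟩ := Finset.one_lt_card.mp h
  rw [SimpleGraph.mem_neighborFinset] at ha hb
  exact ⟨a, b, hab, ha, hb⟩

/-- The colours of the edges outside `H`. -/
abbrev Col (M : ℕ) : Type := Fin M × Fin 3

/-- Reduced words of length at most `r`. -/
abbrev Ball (M r : ℕ) : Type := {l : List (Col M) // l.length ≤ r ∧ l.IsChain (· ≠ ·)}

/-- The involution of the ball belonging to the colour `i`. -/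
def act {M r : ℕ} (i : Col M) (l : Ball M r) : Ball M r :=
  if h : l.1.head? = some i then
    ⟨l.1.tail, by
      refine ⟨?_, l.2.2.tail⟩
      have := l.2.1
      rw [List.length_tail]; omega⟩
  else if h2 : l.1.length < r then
    ⟨i :: l.1, by
      refine ⟨by simpa using h2, ?_⟩
      rw [List.isChain_cons]
      refine ⟨fun y hy => ?_, l.2.2⟩
      rintro rfl
      exact h hy⟩
  else l

theorem act_act {M r : ℕ} (i : Col M) : Function.Involutive (act (M := M) (r := r) i) := by
  rintro ⟨l, hl1, hl2⟩
  rcases l with _ | ⟨j, l⟩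
  · by_cases h : 0 < r
    · simp [act, h]
    · simp [act, h]
  · by_cases hij : j = i
    · subst hij
      have h1 : l.length < r := by simpa using hl1
      have h2 : l.head? ≠ some j := by
        intro h
        rw [List.isChain_cons] at hl2
        exact hl2.1 j h rfl
      simp [act, h1, h2]
    · by_cases h : l.length + 1 < r
      · simp [act, hij, h]
      · simp [act, hij, h]

/-- The permutation of the ball belonging to the colour `i`. -/
def sg {M r : ℕ} (i : Col M) : Equiv.Perm (Ball M r) := (act_act i).toPerm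

theorem sg_sq {M r : ℕ} (i : Col M) : (sg i : Equiv.Perm (Ball M r)) * sg i = 1 := by
  ext x : 1
  exact act_act i x

theorem prod_nil {M r : ℕ} (L : List (Col M)) (h1 : L.length ≤ r) (h2 : L.IsChain (· ≠ ·)) :
    ((L.map (sg (M := M) (r := r))).prod ⟨[], by simp⟩) = ⟨L, h1, h2⟩ := by
  induction L with
  | nil => simp
  | cons i L ih =>
    have h1' : L.length < r := by simpa using h1
    have h2' := List.isChain_cons.mp h2
    rw [List.map_cons, List.prod_cons, Equiv.Perm.mul_apply, ih h1'.le h2'.2]
    change act i _ = _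
    have h3 : L.head? ≠ some i := fun h => h2'.1 i h rfl
    simp [act, h1', h3]

theorem avoid {α : Type} [Fintype α] {M : ℕ} (R : α → Fin M → Prop)
    (hu : ∀ a i j, R a i → R a j → i = j) (hc : Fintype.card α < M) :
    ∃ i, ∀ a, ¬ R a i := by
  by_contra h
  push Not at h
  choose g hg using h
  have : Function.Injective g := by
    intro i j hij
    exact hu (g i) i j (hg i) (by rw [hij]; exact hg j)
  have := Fintype.card_le_of_injective g this
  simp at this
  omega

/-- A private neighbour in the Cayley graph. -/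
theorem private_cay [Fintype W] {M r : ℕ} (hM : 2 * Fintype.card W + 1 < M) (hr : 2 ≤ r)
    (f : W → Option (Equiv.Perm (Ball M r))) (v : Equiv.Perm (Ball M r)) :
    ∃ i : Fin M, (∀ a, f a ≠ some (v * sg (i, 0))) ∧
      (∀ a u, f a = some u → (∃ c : Fin M, u = v * sg (i, 0) * sg (c, 0)) → u = v) ∧
      v * sg (i, 0) ≠ 1 := by
  have key1 : ∀ i j : Fin M, (sg (i, 0) : Equiv.Perm (Ball M r)) = sg (j, 0) → i = j := by
    intro i j h
    have h1 := prod_nil (r := r) [((i, 0) : Col M)] (by simp; omega) (by simp)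
    have h2 := prod_nil (r := r) [((j, 0) : Col M)] (by simp; omega) (by simp)
    simp only [List.map_cons, List.map_nil, List.prod_cons, List.prod_nil, mul_one] at h1 h2
    rw [h] at h1
    have := h1.symm.trans h2
    simp at this
    exact this
  have key2 : ∀ i j c d : Fin M, i ≠ c → j ≠ d →
      (sg (i, 0) * sg (c, 0) : Equiv.Perm (Ball M r)) = sg (j, 0) * sg (d, 0) → i = j := by
    intro i j c d hic hjd h
    have h1 := prod_nil (r := r) [((i, 0) : Col M), (c, 0)] (by simp; omega) (by simp [hic])
    have h2 := prod_nil (r := r) [((j, 0) : Col M), (d, 0)] (by simp; omega) (by simp [hjd])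
    simp only [List.map_cons, List.map_nil, List.prod_cons, List.prod_nil, mul_one] at h1 h2
    rw [h] at h1
    have := h1.symm.trans h2
    simp at this
    exact this.1
  let R : (W ⊕ W) ⊕ Unit → Fin M → Prop := fun x i => match x with
    | .inl (.inl a) => f a = some (v * sg (i, 0))
    | .inl (.inr a) => ∃ c, i ≠ c ∧ f a = some (v * sg (i, 0) * sg (c, 0))
    | .inr _ => v * sg (i, 0) = 1
  obtain ⟨i, hi⟩ := avoid R (by
    rintro ((a | a) | a) i j h1 h2
    · have := h1.symm.trans h2
      simp only [Option.some.injEq] at this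
      exact key1 i j (mul_left_cancel this)
    · obtain ⟨c, hc, h1⟩ := h1
      obtain ⟨d, hd, h2⟩ := h2
      have := h1.symm.trans h2
      simp only [Option.some.injEq, mul_assoc] at this
      exact key2 i j c d hc hd (mul_left_cancel this)
    · have h1' : v * sg (i, 0) = 1 := h1
      have h2' : v * sg (j, 0) = 1 := h2
      exact key1 i j (mul_left_cancel (h1'.trans h2'.symm))) (by
    simp; omega)
  refine ⟨i, fun a h => hi (.inl (.inl a)) h, ?_, fun h => hi (.inr ()) h⟩
  rintro a u ha ⟨c, hc⟩
  by_cases hic : i = c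
  · rw [hc, ← hic, mul_assoc, sg_sq, mul_one]
  · exact absurd ⟨c, hic, by rw [ha, hc]⟩ (hi (.inl (.inr a)))

theorem sg_ne_one {M r : ℕ} (hr : 2 ≤ r) (i : Col M) : (sg i : Equiv.Perm (Ball M r)) ≠ 1 := by
  intro h
  have h1 := prod_nil (r := r) [i] (by simp; omega) (by simp)
  simp only [List.map_cons, List.map_nil, List.prod_cons, List.prod_nil, mul_one] at h1
  rw [h] at h1
  simp at h1

instance {M r : ℕ} : Finite (Ball M r) :=
  (((List.finite_length_le (Col M) r).subset (fun _ h => h.1)).to_subtype :
    Finite {l : List (Col M) | l.length ≤ r ∧ l.IsChain (· ≠ ·)})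

/-- Vertices of the tower: a vertex of `H`, a word, and possibly a place in a Cayley graph. -/
abbrev Tow (W : Type) (M r : ℕ) : Type := W × List (Fin M) × Option (Fin M × Equiv.Perm (Ball M r))

/-- The adjacency of the tower: `H` on the empty words, a tree on the words, copies of the
Cayley graph attached through the identity. -/
inductive TAdj (H : SimpleGraph W) (M r : ℕ) : Tow W M r → Tow W M r → Prop
  | core (w w' : W) (h : H.Adj w w') : TAdj H M r (w, [], none) (w', [], none)
  | up (w : W) (c : Fin M) (l : List (Fin M)) : TAdj H M r (w, l, none) (w, c :: l, none)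
  | down (w : W) (c : Fin M) (l : List (Fin M)) : TAdj H M r (w, c :: l, none) (w, l, none)
  | out (w : W) (l : List (Fin M)) (i : Fin M) : TAdj H M r (w, l, none) (w, l, some (i, 1))
  | back (w : W) (l : List (Fin M)) (i : Fin M) : TAdj H M r (w, l, some (i, 1)) (w, l, none)
  | inc (w : W) (l : List (Fin M)) (i : Fin M) (u v : Equiv.Perm (Ball M r)) (c : Fin M)
      (h : v = u * sg (c, 0)) (hne : u ≠ v) :
      TAdj H M r (w, l, some (i, u)) (w, l, some (i, v))

theorem tadj_ne {H : SimpleGraph W} {M p : ℕ} {x y : Tow W M p} (h : TAdj H M p x y) :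
    x ≠ y := by
  rcases h with (⟨w1, w2, h⟩ | ⟨w1, c, l1⟩ | ⟨w1, c, l1⟩ | ⟨w1, l1, i⟩ | ⟨w1, l1, i⟩ |
    ⟨w1, l1, i, u, v, c, h, hne⟩)
  · intro hy
    simp only [Prod.mk.injEq, and_true] at hy
    exact h.ne hy
  · simp
  · simp
  · simp
  · simp
  · intro hy
    simp only [Prod.mk.injEq, Option.some.injEq, true_and] at hy
    exact hne hy

/-- The tower, on all words. -/
def tower (H : SimpleGraph W) (M p : ℕ) : SimpleGraph (Tow W M p) where
  Adj := TAdj H M p
  symm := by
    constructor
    rintro _ _ (⟨w, w', h⟩ | ⟨w, c, l⟩ | ⟨w, c, l⟩ | ⟨w, l, i⟩ | ⟨w, l, i⟩ |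
      ⟨w, l, i, u, v, c, h, hne⟩)
    · exact .core _ _ h.symm
    · exact .down _ _ _
    · exact .up _ _ _
    · exact .back _ _ _
    · exact .out _ _ _
    · exact .inc _ _ _ _ _ c (by rw [h, mul_assoc, sg_sq, mul_one]) hne.symm
  loopless := by
    constructor
    intro x h
    exact tadj_ne h rfl

/-- Parity colour. -/
def par {M : ℕ} (l : List (Fin M)) : Fin 3 := if l.length.bodd then 1 else 0

/-- The coloured adjacency outside `H`. -/
inductive K (M r : ℕ) : Col M → Tow W M r → Tow W M r → Prop
  | up (w : W) (c : Fin M) (l : List (Fin M)) (i : Col M) (hi : i = (c, par l)) :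
      K M r i (w, l, none) (w, c :: l, none)
  | down (w : W) (c : Fin M) (l : List (Fin M)) (i : Col M) (hi : i = (c, par l)) :
      K M r i (w, c :: l, none) (w, l, none)
  | out (w : W) (l : List (Fin M)) (c : Fin M) (i : Col M) (hi : i = (c, 2)) :
      K M r i (w, l, none) (w, l, some (c, 1))
  | back (w : W) (l : List (Fin M)) (c : Fin M) (i : Col M) (hi : i = (c, 2)) :
      K M r i (w, l, some (c, 1)) (w, l, none)
  | inc (w : W) (l : List (Fin M)) (k : Fin M) (u v : Equiv.Perm (Ball M r)) (c : Fin M)
      (i : Col M) (hi : i = (c, 0)) (h : v = u * sg (c, 0)) :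
      K M r i (w, l, some (k, u)) (w, l, some (k, v))

theorem K_symm {M r : ℕ} {i : Col M} {x y : Tow W M r} (h : K M r i x y) : K M r i y x := by
  rcases h with (⟨w, c, l, _, hi⟩ | ⟨w, c, l, _, hi⟩ | ⟨w, l, c, _, hi⟩ | ⟨w, l, c, _, hi⟩ |
    ⟨w, l, k, u, v, c, _, hi, h⟩)
  · exact .down _ _ _ _ hi
  · exact .up _ _ _ _ hi
  · exact .back _ _ _ _ hi
  · exact .out _ _ _ _ hi
  · exact .inc _ _ _ _ _ c _ hi (by rw [h, mul_assoc, sg_sq, mul_one])

theorem par_ne {M : ℕ} (c : Fin M) (l : List (Fin M)) : par (c :: l) ≠ par l := by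
  unfold par
  rw [List.length_cons, Nat.bodd_succ]
  cases l.length.bodd <;> simp

theorem par_ne_two {M : ℕ} (l : List (Fin M)) : par l ≠ 2 := by
  unfold par
  split <;> decide

theorem K_unique {M r : ℕ} {i : Col M} {x y z : Tow W M r} (h : K M r i x y)
    (h' : K M r i x z) : y = z := by
  cases h with
  | up w c l _ hi =>
    cases h' with
    | up _ c' _ _ hi' =>
      rw [hi] at hi'
      simp only [Prod.mk.injEq, and_true] at hi'
      rw [hi']
    | down _ c' l' _ hi' =>
      rw [hi] at hi'
      simp only [Prod.mk.injEq] at hi'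
      exact absurd hi'.2 (par_ne _ _)
    | out _ _ c' _ hi' =>
      rw [hi] at hi'
      simp only [Prod.mk.injEq] at hi'
      exact absurd hi'.2 (par_ne_two _)
  | down w c l _ hi =>
    cases h' with
    | up _ c' _ _ hi' =>
      rw [hi] at hi'
      simp only [Prod.mk.injEq] at hi'
      exact absurd hi'.2.symm (par_ne _ _)
    | down _ c' l' _ hi' => rfl
    | out _ _ c' _ hi' =>
      rw [hi] at hi'
      simp only [Prod.mk.injEq] at hi'
      exact absurd hi'.2 (par_ne_two _)
  | out w l c _ hi =>
    cases h' with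
    | up _ c' _ _ hi' =>
      rw [hi] at hi'
      simp only [Prod.mk.injEq] at hi'
      exact absurd hi'.2.symm (par_ne_two _)
    | down _ c' l' _ hi' =>
      rw [hi] at hi'
      simp only [Prod.mk.injEq] at hi'
      exact absurd hi'.2.symm (par_ne_two _)
    | out _ _ c' _ hi' =>
      rw [hi] at hi'
      simp only [Prod.mk.injEq, and_true] at hi'
      rw [hi']
  | back w l c _ hi =>
    cases h' with
    | back _ _ c' _ hi' => rfl
    | inc _ _ _ _ v c' _ hi' h' =>
      rw [hi] at hi'
      simp only [Prod.mk.injEq] at hi'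
      exact absurd hi'.2 (by decide)
  | inc w l k u v c _ hi h =>
    cases h' with
    | back _ _ c' _ hi' =>
      rw [hi] at hi'
      simp only [Prod.mk.injEq] at hi'
      exact absurd hi'.2 (by decide)
    | inc _ _ _ _ v' c' _ hi' h' =>
      rw [hi] at hi'
      simp only [Prod.mk.injEq, and_true] at hi'
      rw [h, h', hi']

theorem toK {H : SimpleGraph W} {M r : ℕ} {x y : Tow W M r} (h : TAdj H M r x y)
    (hx : x.2 ≠ ([], none)) : ∃ i, K M r i x y := by
  rcases h with (⟨w1, w2, h⟩ | ⟨w1, c, l1⟩ | ⟨w1, c, l1⟩ | ⟨w1, l1, i⟩ | ⟨w1, l1, i⟩ |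
    ⟨w1, l1, i, u, v, c, h, hne⟩)
  · exact absurd rfl hx
  · exact ⟨_, .up _ _ _ _ rfl⟩
  · exact ⟨_, .down _ _ _ _ rfl⟩
  · exact ⟨_, .out _ _ _ _ rfl⟩
  · exact ⟨_, .back _ _ _ _ rfl⟩
  · exact ⟨_, .inc _ _ _ _ _ c _ rfl h⟩

/-- The potential of a word. -/
def Psi {M r : ℕ} : List (Fin M) → Equiv.Perm (Ball M r)
  | [] => 1
  | c :: l => Psi l * sg (c, par l)

/-- The potential. -/
def Phi {M r : ℕ} (x : Tow W M r) : Equiv.Perm (Ball M r) :=
  match x.2.2 with
  | none => Psi x.2.1
  | some (i, u) => Psi x.2.1 * sg (i, 2) * u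

theorem Phi_K {M r : ℕ} {i : Col M} {x y : Tow W M r} (h : K M r i x y) :
    Phi y = Phi x * sg i := by
  rcases h with (⟨w, c, l, _, rfl⟩ | ⟨w, c, l, _, rfl⟩ | ⟨w, l, c, _, rfl⟩ | ⟨w, l, c, _, rfl⟩ |
    ⟨w, l, k, u, v, c, _, rfl, h⟩)
  · rfl
  · change Psi l = Psi l * sg (c, par l) * sg (c, par l)
    rw [mul_assoc, sg_sq, mul_one]
  · change Psi l * sg (c, 2) * 1 = Psi l * sg (c, 2)
    rw [mul_one]
  · change Psi l = Psi l * sg (c, 2) * 1 * sg (c, 2)
    rw [mul_one, mul_assoc, sg_sq, mul_one]
  · change Psi l * sg (k, 2) * v = Psi l * sg (k, 2) * u * sg (c, 0)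
    rw [h, mul_assoc _ u]

theorem path_word {H : SimpleGraph W} {M r : ℕ} (f : W → Tow W M r)
    (finj : ∀ a b, f a = f b → a = b) (fadj : ∀ a b, H.Adj a b → TAdj H M r (f a) (f b))
    {u v : W} (p : H.Walk u v) (hp : p.IsPath) (hs : ∀ a ∈ p.support, (f a).2 ≠ ([], none)) :
    ∃ L : List (Col M), L.length = p.length ∧ L.IsChain (· ≠ ·) ∧
      Phi (f v) = Phi (f u) * (L.map sg).prod ∧
      ∀ i, L.head? = some i → ∃ x ∈ p.support, K M r i (f u) (f x) := by
  induction p with
  | nil => exact ⟨[], rfl, by simp, by simp, by simp⟩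
  | @cons a b d h p ih =>
    rw [SimpleGraph.Walk.cons_isPath_iff] at hp
    obtain ⟨L, h1, h2, h3, h4⟩ := ih hp.1 (fun x hx => hs x (by
      rw [SimpleGraph.Walk.support_cons]; exact List.mem_cons_of_mem _ hx))
    obtain ⟨i, hi⟩ := toK (fadj _ _ h) (hs a (SimpleGraph.Walk.start_mem_support _))
    refine ⟨i :: L, by simp [h1], ?_, ?_, ?_⟩
    · rw [List.isChain_cons]
      refine ⟨fun y hy => ?_, h2⟩
      rintro rfl
      obtain ⟨x, hx, hx'⟩ := h4 i hy
      have := finj _ _ (K_unique hx' (K_symm hi))
      rw [this] at hx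
      exact hp.2 hx
    · rw [h3, Phi_K hi, List.map_cons, List.prod_cons, mul_assoc]
    · intro j hj
      simp only [List.head?_cons, Option.some.injEq] at hj
      subst hj
      exact ⟨b, by rw [SimpleGraph.Walk.support_cons];
                   exact List.mem_cons_of_mem _ p.start_mem_support, hi⟩

theorem no_cycle {H : SimpleGraph W} {M r : ℕ} (f : W → Tow W M r)
    (finj : ∀ a b, f a = f b → a = b) (fadj : ∀ a b, H.Adj a b → TAdj H M r (f a) (f b))
    {v : W} (c : H.Walk v v) (hc : c.IsCycle) (hlen : c.length ≤ r)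
    (hs : ∀ a ∈ c.support, (f a).2 ≠ ([], none)) : False := by
  have h3 := hc.three_le_length
  cases c with
  | nil => simp at h3
  | @cons _ b _ h p =>
    rw [SimpleGraph.Walk.cons_isCycle_iff] at hc
    have hs' : ∀ a ∈ p.support, (f a).2 ≠ ([], none) := fun x hx => hs x (by
      rw [SimpleGraph.Walk.support_cons]; exact List.mem_cons_of_mem _ hx)
    obtain ⟨L, h1, h2, h4, -⟩ := path_word f finj fadj p hc.1 hs'
    obtain ⟨i, hi⟩ := toK (fadj _ _ h) (hs v (SimpleGraph.Walk.start_mem_support _))
    have h5 := Phi_K (K_symm hi)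
    rw [h5] at h4
    have h6 := mul_left_cancel h4
    rw [SimpleGraph.Walk.length_cons] at h3 hlen
    have e1 := prod_nil (r := r) L (by omega) h2
    have e2 := prod_nil (r := r) [i] (by simp; omega) (by simp)
    simp only [List.map_cons, List.map_nil, List.prod_cons, List.prod_nil, mul_one] at e2
    rw [← h6, e2] at e1
    have e3 := congrArg (fun z => z.1.length) e1
    simp only [List.length_cons, List.length_nil] at e3
    omega

/-- Words of length at most `n`, planes attached only at words of length `n`. -/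
def Valid (n : ℕ) {M p : ℕ} : Set (Tow W M p) :=
  {x | x.2.1.length ≤ n ∧ (x.2.2 ≠ none → x.2.1.length = n)}

theorem valid_finite [Finite W] (n M p : ℕ) : (Valid (W := W) n (M := M) (p := p)).Finite := by
  have h1 : ({l : List (Fin M) | l.length ≤ n}).Finite := List.finite_length_le _ _
  have h2 : ((Set.univ : Set W) ×ˢ ({l : List (Fin M) | l.length ≤ n} ×ˢ
      (Set.univ : Set (Option (Fin M × Equiv.Perm (Ball M p)))))).Finite :=
    Set.finite_univ.prod (h1.prod Set.finite_univ)
  refine h2.subset ?_
  rintro ⟨w, l, o⟩ h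
  exact ⟨trivial, h.1, trivial⟩

/-- The branch above the word `m` at `w`. -/
def Br {M p : ℕ} (w : W) (m : List (Fin M)) : Set (Tow W M p) :=
  {x | x.1 = w ∧ m <:+ x.2.1}

theorem br_exit {H : SimpleGraph W} {M p : ℕ} {w : W} {c : Fin M} {l : List (Fin M)}
    {x y : Tow W M p} (h : TAdj H M p x y) (hx : x ∈ Br w (c :: l)) (hy : y ∉ Br w (c :: l)) :
    y = (w, l, none) := by
  rcases h with (⟨w1, w2, h⟩ | ⟨w1, c1, l1⟩ | ⟨w1, c1, l1⟩ | ⟨w1, l1, i⟩ | ⟨w1, l1, i⟩ |
      ⟨w1, l1, i, u, v, c', h, hne⟩)
  · have := hx.2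
    simp at this
  · exact absurd ⟨hx.1, hx.2.trans (List.suffix_cons _ _)⟩ hy
  · obtain ⟨h1, h2⟩ := hx
    simp only at h1 h2
    rcases List.suffix_cons_iff.mp h2 with h3 | h3
    · simp only [List.cons.injEq] at h3
      rw [h1, h3.2]
    · exact absurd ⟨h1, h3⟩ hy
  · exact absurd hx hy
  · exact absurd hx hy
  · exact absurd hx hy

theorem br_sep {H : SimpleGraph W} {M p n : ℕ} {w : W} {c : Fin M} {l : List (Fin M)}
    {u v : (Valid (W := W) n (M := M) (p := p))}
    (q : ((tower H M p).induce (Valid n)).Walk u v)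
    (hu : u.1 ∈ Br w (c :: l)) (hv : v.1 ∉ Br w (c :: l)) :
    ∃ z ∈ q.support, z.1 = (w, l, none) := by
  induction q with
  | nil => exact absurd hu hv
  | @cons a b d h q ih =>
    by_cases hb : b.1 ∈ Br w (c :: l)
    · obtain ⟨z, hz, hz'⟩ := ih hb hv
      exact ⟨z, by rw [SimpleGraph.Walk.support_cons]; exact List.mem_cons_of_mem _ hz, hz'⟩
    · refine ⟨b, ?_, br_exit h hu hb⟩
      rw [SimpleGraph.Walk.support_cons]
      exact List.mem_cons_of_mem _ q.start_mem_support

/-- A child branch not met by a given finite family. -/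
theorem free_branch [Fintype W] {M p : ℕ} (hM : Fintype.card W + 1 < M) (f : W → Tow W M p)
    (w : W) (l : List (Fin M)) (c0 : Fin M) :
    ∃ c, c ≠ c0 ∧ ∀ a, f a ∉ Br w (c :: l) := by
  classical
  let g : W → Fin M := fun a => (f a).2.1.getD ((f a).2.1.length - l.length - 1) c0
  let S : Finset (Fin M) := insert c0 (Finset.univ.image g)
  have hS : S.card < (Finset.univ : Finset (Fin M)).card := by
    calc S.card ≤ (Finset.univ.image g).card + 1 := Finset.card_insert_le _ _
      _ ≤ Fintype.card W + 1 := by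
        have := Finset.card_image_le (s := (Finset.univ : Finset W)) (f := g)
        simpa using this
      _ < M := hM
      _ = _ := by simp
  obtain ⟨c, -, hc⟩ := Finset.exists_mem_notMem_of_card_lt_card hS
  simp only [S, Finset.mem_insert, Finset.mem_image, Finset.mem_univ, true_and, not_or,
    not_exists] at hc
  refine ⟨c, hc.1, fun a ha => hc.2 a ?_⟩
  obtain ⟨-, l2, hl2⟩ := ha
  simp only [g]
  rw [← hl2]
  have : (l2 ++ c :: l).length - l.length - 1 = l2.length := by
    simp only [List.length_append, List.length_cons]; omega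
  rw [this, List.getD_eq_getElem?_getD, List.getElem?_append_right (le_refl _)]
  simp

/-- An unused plane. -/
theorem free_index [Fintype W] {M p : ℕ} (hM : Fintype.card W + 1 < M) (f : W → Tow W M p)
    (w : W) (l : List (Fin M)) : ∃ i : Fin M, ∀ a v, f a ≠ (w, l, some (i, v)) := by
  classical
  have c0 : Fin M := ⟨0, by omega⟩
  let g : W → Fin M := fun a => match (f a).2.2 with
    | none => c0
    | some (i, _) => i
  let S : Finset (Fin M) := Finset.univ.image g
  have hS : S.card < (Finset.univ : Finset (Fin M)).card := by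
    calc S.card ≤ Fintype.card W := by
          have := Finset.card_image_le (s := (Finset.univ : Finset W)) (f := g)
          simpa using this
      _ < M := by omega
      _ = _ := by simp
  obtain ⟨i, -, hi⟩ := Finset.exists_mem_notMem_of_card_lt_card hS
  simp only [S, Finset.mem_image, Finset.mem_univ, true_and, not_exists] at hi
  refine ⟨i, fun a v h => hi a ?_⟩
  simp only [g, h]

/-- The depth of a vertex of the tower. -/
def dep {M p : ℕ} (x : Tow W M p) : ℕ := x.2.1.length + (if x.2.2 = none then 0 else 1)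

theorem dep_le {H : SimpleGraph W} {M p : ℕ} {x y : Tow W M p} (h : TAdj H M p x y) :
    dep x ≤ dep y + 1 := by
  rcases h with (⟨w1, w2, h⟩ | ⟨w1, c1, l1⟩ | ⟨w1, c1, l1⟩ | ⟨w1, l1, i⟩ | ⟨w1, l1, i⟩ |
      ⟨w1, l1, i, u, v, c', h, hne⟩) <;> simp [dep] <;> omega

/-- If the component of `s` contains a cycle then `(H, s, t)` is not inherent. -/
theorem caseF [Fintype W] (H : SimpleGraph W) (s t : W) (v0 : W) (cy : H.Walk v0 v0)
    (hsv0 : H.Reachable s v0) (hcy : cy.IsCycle) : ¬ Inherent H s t := by
  classical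
  intro hinh
  set n := Fintype.card W with hn
  set M := 2 * n + 3 with hMdef
  set r := n + 2 with hrdef
  have hM : Fintype.card W + 1 < M := by omega
  let _ : Fintype (Valid (W := W) n (M := M) (p := r)) := (valid_finite n M r).fintype
  have hcore : Nonempty (H ↪g (tower H M r).induce (Valid n)) := by
    refine ⟨⟨⟨fun w => ⟨(w, [], none), ⟨Nat.zero_le _, fun h => absurd rfl h⟩⟩, ?_⟩, ?_⟩⟩
    · intro a b h
      have := congrArg (fun z => z.1.1) h
      exact this
    · intro a b
      constructor
      · intro h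
        have h' : TAdj H M r (a, [], none) (b, [], none) := h
        cases h'
        assumption
      · intro h
        exact TAdj.core _ _ h
  obtain ⟨φ, hφ⟩ := hinh _ ((tower H M r).induce (Valid n)) hcore
  let f : W → Tow W M r := fun a => (φ a).1
  have finj : ∀ a b, f a = f b → a = b := fun a b h => φ.injective (Subtype.ext h)
  have fadj : ∀ a b, H.Adj a b ↔ TAdj H M r (f a) (f b) := fun a b => φ.map_adj_iff.symm
  have hclen : cy.length ≤ r := by
    have : ∀ {v : W} (c : H.Walk v v), c.IsCycle → c.length ≤ n := by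
      intro v c hc
      cases c with
      | nil => simp
      | cons h p =>
        rw [SimpleGraph.Walk.cons_isCycle_iff] at hc
        have := hc.1.length_lt
        rw [SimpleGraph.Walk.length_cons]
        omega
    have := this cy hcy
    omega
  -- the component of `s` meets `H`
  have hmeet : ∃ a, H.Reachable s a ∧ (f a).2 = ([], none) := by
    by_contra hno
    push Not at hno
    exact no_cycle f finj (fun a b h => (fadj a b).mp h) cy hcy hclen
      (fun a ha => hno a (hsv0.trans (cy.takeUntil a ha).reachable))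
  obtain ⟨a0, ha0, ha0'⟩ := hmeet
  have hdep : ∀ (u v : W) (q : H.Walk u v), dep (f u) ≤ dep (f v) + q.length := by
    intro u v q
    induction q with
    | nil => simp
    | cons h q ih =>
      have := dep_le ((fadj _ _).mp h)
      rw [SimpleGraph.Walk.length_cons]
      omega
  obtain ⟨q, hq⟩ := ha0.exists_isPath
  have hlen : q.length < n := hq.length_lt
  have hd := hdep _ _ q
  have hd0 : dep (f a0) = 0 := by simp [dep, ha0']
  have hfs : (f s).2.2 = none ∧ (f s).2.1.length < n := by
    have hv := (φ s).2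
    constructor
    · by_contra h
      have h1 := hv.2 h
      have h2 : dep (f s) = n + 1 := by
        simp only [dep]
        rw [if_neg h]
        exact congrArg (· + 1) h1
      omega
    · have : (f s).2.1.length ≤ dep (f s) := by simp [dep]
      omega
  obtain ⟨w, l, hwl⟩ : ∃ w l, f s = (w, l, none) := ⟨(f s).1, (f s).2.1, by
    rw [← hfs.1]⟩
  have hl : l.length < n := by
    have := hfs.2
    rw [hwl] at this
    exact this
  have c0 : Fin M := ⟨0, by omega⟩
  obtain ⟨c, -, hc⟩ := free_branch hM f w l c0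
  -- the private neighbour of `t`
  have key : ∃ z : Tow W M r, z ∈ Valid n ∧ z ∉ Br w (c :: l) ∧ (∀ a, f a ≠ z) ∧
      ∀ a, TAdj H M r z (f a) ↔ a = t := by
    rcases ht : f t with ⟨w2, l2, o2⟩
    have htv : ((w2, l2, o2) : Tow W M r) ∈ Valid n := by rw [← ht]; exact (φ t).2
    have htB : ((w2, l2, o2) : Tow W M r) ∉ Br w (c :: l) := by rw [← ht]; exact hc t
    rcases o2 with _ | ⟨i, v⟩
    · by_cases hl2 : l2.length < n
      · obtain ⟨c2, hc2, hc2'⟩ := free_branch hM f w2 l2 c
        refine ⟨(w2, c2 :: l2, none), ⟨by simpa using hl2, fun h => absurd rfl h⟩, ?_, ?_, ?_⟩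
        · rintro ⟨h1, h2⟩
          simp only at h1 h2
          rcases List.suffix_cons_iff.mp h2 with h3 | h3
          · simp only [List.cons.injEq] at h3
            exact hc2 h3.1.symm
          · exact htB ⟨h1, h3⟩
        · intro a ha
          exact hc2' a (by rw [ha]; exact ⟨rfl, List.suffix_refl _⟩)
        · intro a
          constructor
          · intro h
            have := br_exit h ⟨rfl, List.suffix_refl _⟩ (hc2' a)
            exact finj a t (this.trans ht.symm)
          · rintro rfl
            rw [ht]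
            exact .down _ _ _
      · have hl2' : l2.length = n := le_antisymm htv.1 (not_lt.mp hl2)
        obtain ⟨i, hi⟩ := free_index hM f w2 l2
        refine ⟨(w2, l2, some (i, 1)), ⟨htv.1, fun _ => hl2'⟩, ?_, fun a => hi a _, ?_⟩
        · rintro ⟨h1, h2⟩
          exact htB ⟨h1, h2⟩
        · intro a
          constructor
          · intro h
            generalize hfa : f a = y at h
            cases h with
            | back => exact finj a t (hfa.trans ht.symm)
            | inc _ _ _ _ v _ h => exact absurd hfa (hi a v)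
          · rintro rfl
            rw [ht]
            exact .back _ _ _
    · let e : W → Option (Equiv.Perm (Ball M r)) := fun a =>
        match (f a).2.2 with
        | none => none
        | some (k, u) => if (f a).1 = w2 ∧ (f a).2.1 = l2 ∧ k = i then some u else none
      have he : ∀ a u, f a = (w2, l2, some (i, u)) → e a = some u := by
        intro a u h
        simp only [e, h]
        simp
      obtain ⟨i', h2, h3, h4⟩ := private_cay (by omega) (by omega : 2 ≤ r) e v
      obtain ⟨γ, hγ⟩ : ∃ γ, γ = v * sg (i', 0) := ⟨_, rfl⟩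
      rw [← hγ] at h3 h4
      have h2 : ∀ a, e a ≠ some γ := fun a => by rw [hγ]; exact h2 a
      have hl2 : l2.length = n := htv.2 (by simp)
      refine ⟨(w2, l2, some (i, γ)), ⟨htv.1, fun _ => hl2⟩, ?_, ?_, ?_⟩
      · rintro ⟨g1, g2⟩
        exact htB ⟨g1, g2⟩
      · intro a ha
        exact h2 a (he a γ ha)
      · intro a
        constructor
        · intro h
          generalize hfa : f a = y at h
          cases h with
          | back => exact absurd rfl h4
          | inc _ _ _ _ u c' hu _ =>
            have := h3 a u (he a u hfa) ⟨c', hu⟩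
            subst this
            exact finj a t (hfa.trans ht.symm)
        · rintro rfl
          rw [ht]
          refine .inc _ _ _ _ _ i' (by rw [hγ, mul_assoc, sg_sq, mul_one]) ?_
          intro h
          rw [hγ] at h
          exact sg_ne_one (by omega : 2 ≤ r) (i', 0) (mul_eq_left.mp h)
  obtain ⟨z, hz1, hz2, hz3, hz4⟩ := key
  have hsv : ((w, c :: l, none) : Tow W M r) ∈ Valid n :=
    ⟨by simpa using hl, fun h => absurd rfl h⟩
  have hsB : ((w, c :: l, none) : Tow W M r) ∈ Br w (c :: l) := ⟨rfl, List.suffix_refl _⟩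
  have hext : IsExtension φ s t ⟨(w, c :: l, none), hsv⟩ ⟨z, hz1⟩ := by
    refine ⟨?_, ?_, ?_, ?_, ?_, ?_⟩
    · intro h
      apply hz2
      have := congrArg Subtype.val h
      simp only at this
      rw [← this]
      exact hsB
    · rintro ⟨a, ha⟩
      apply hc a
      have : f a = (w, c :: l, none) := congrArg Subtype.val ha
      rw [this]
      exact hsB
    · rintro ⟨a, ha⟩
      exact hz3 a (congrArg Subtype.val ha)
    · intro h
      have h' : TAdj H M r (w, c :: l, none) z := h
      exact hz3 s (hwl.trans (br_exit h' hsB hz2).symm)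
    · intro a
      constructor
      · intro h
        have h' : TAdj H M r (w, c :: l, none) (f a) := h
        exact finj a s ((br_exit h' hsB (hc a)).trans hwl.symm)
      · rintro rfl
        change TAdj H M r (w, c :: l, none) (f a)
        rw [hwl]
        exact .down _ _ _
    · intro a
      exact hz4 a
  obtain ⟨q, -, -, hq⟩ := hφ _ _ hext
  obtain ⟨y, hy, hy'⟩ := br_sep q hsB hz2
  have hys : y = φ s := Subtype.ext (hy'.trans hwl.symm)
  refine (hq y hy ?_ ?_ s).1 hys
  · intro h
    have := congrArg Subtype.val h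
    rw [hy'] at this
    simp at this
  · intro h
    have := congrArg Subtype.val h
    rw [hy', ← hwl] at this
    exact hz3 s this

/-- If `(H, s, t)` is inherent then the components of `s` and of `t` are trees and, up to
exchanging the roots, `(deg s, deg t)` is one of `(0, 0)`, `(0, 1)`, `(1, 1)`, `(1, 2)`. -/
theorem result (W : Type) [Fintype W] (H : SimpleGraph W) [DecidableRel H.Adj] (s t : W)
    (hinh : Inherent H s t) :
    ((H.degree s ≤ 1 ∧ H.degree t ≤ 1) ∨ (H.degree s = 1 ∧ H.degree t = 2) ∨
      (H.degree s = 2 ∧ H.degree t = 1)) ∧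
    (∀ (v : W) (c : H.Walk v v), H.Reachable s v → ¬ c.IsCycle) ∧
    (∀ (v : W) (c : H.Walk v v), H.Reachable t v → ¬ c.IsCycle) := by
  have half : ∀ s t : W, Inherent H s t → H.degree t ≤ 1 → 2 ≤ H.degree s →
      (H.degree s = 2 ∧ H.degree t = 1) := by
    intro s t hi ht hs
    have htri : ∀ a b, H.Adj s a → H.Adj s b → ¬ H.Adj a b := fun a b ha hb hab =>
      caseD H s t ⟨a, b, ha, hb, hab⟩ hi
    refine ⟨?_, ?_⟩
    · by_contra hne
      have h3 : 2 < (H.neighborFinset s).card := by
        rw [SimpleGraph.card_neighborFinset_eq_degree]; omega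
      obtain ⟨a, b, c, ha, hb, hc, hab, hac, hbc⟩ := Finset.two_lt_card_iff.mp h3
      rw [SimpleGraph.mem_neighborFinset] at ha hb hc
      refine caseB H s t ⟨a, b, c, hab, hac, hbc, ha, hb, hc, htri a b ha hb, htri a c ha hc,
        htri b c hb hc⟩ ?_ hi
      rintro ⟨u, v, huv, hu, hv⟩
      have : 1 < (H.neighborFinset t).card := Finset.one_lt_card.mpr
        ⟨u, (SimpleGraph.mem_neighborFinset _ _ _).mpr hu, v,
          (SimpleGraph.mem_neighborFinset _ _ _).mpr hv, huv⟩
      rw [SimpleGraph.card_neighborFinset_eq_degree] at this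
      omega
    · by_contra hne
      have h0 : H.degree t = 0 := by omega
      obtain ⟨a, b, hab, ha, hb⟩ := twoNbrs_of_degree H s hs
      refine caseC H s t ⟨a, b, hab, ha, hb, htri a b ha hb⟩ ?_ hi
      intro u hu
      have : 0 < (H.neighborFinset t).card := Finset.card_pos.mpr
        ⟨u, (SimpleGraph.mem_neighborFinset _ _ _).mpr hu⟩
      rw [SimpleGraph.card_neighborFinset_eq_degree] at this
      omega
  refine ⟨?_, ?_, ?_⟩
  · rcases Nat.lt_or_ge (H.degree s) 2 with h1 | h1 <;>
      rcases Nat.lt_or_ge (H.degree t) 2 with h2 | h2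
    · left; omega
    · right; left
      obtain ⟨e1, e2⟩ := half t s (inherent_symm hinh) (by omega) h2
      exact ⟨e2, e1⟩
    · right; right
      exact half s t hinh (by omega) h1
    · exact absurd hinh (caseA H s t (twoNbrs_of_degree H s h1) (twoNbrs_of_degree H t h2))
  · exact fun v c hv hc => caseF H s t v c hv hc hinh
  · exact fun v c hv hc => caseF H t s v c hv hc (inherent_symm hinh)

end Pool.Agent.Results.MP_4a1452_co.RootComponentsTrees
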